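import Mathlib

open Polynomial

namespace Pool.Agent.Results.MP_6bb0fd_an.NonMonotone

/-- A real polynomial is hyperbolic if it is the zero polynomial or all its complex zeros are
real. -/
def Hyperbolic (p : ℝ[X]) : Prop :=
  p = 0 ∨ ∀ z : ℂ, aeval z p = 0 → z.im = 0

/-- `T = ∑_k Q_k D^k` as an operator on real polynomials (the sum applied to `p` is finite, since
`D^k p = 0` for `k > deg p`). -/
def HasExpansion (T : ℝ[X] →ₗ[ℝ] ℝ[X]) (Q : ℕ → ℝ[X]) : Prop :=
  ∀ p : ℝ[X], T p = ∑ k ∈ Finset.range (p.natDegree + 1), Q k * derivative^[k] p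

/-! ### Operators with prescribed coefficients -/

lemma sum_extend (Q : ℕ → ℝ[X]) (p : ℝ[X]) {N : ℕ} (h : p.natDegree + 1 ≤ N) :
    ∑ k ∈ Finset.range (p.natDegree + 1), Q k * derivative^[k] p =
      ∑ k ∈ Finset.range N, Q k * derivative^[k] p := by
  apply Finset.sum_subset
  · intro k hk
    simp only [Finset.mem_range] at hk ⊢
    omega
  · intro k _ hk
    simp only [Finset.mem_range, not_lt] at hk
    rw [iterate_derivative_eq_zero (by omega), mul_zero]

/-- The operator `∑_k Q_k D^k`. -/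
noncomputable def opOf (Q : ℕ → ℝ[X]) : ℝ[X] →ₗ[ℝ] ℝ[X] where
  toFun p := ∑ k ∈ Finset.range (p.natDegree + 1), Q k * derivative^[k] p
  map_add' p q := by
    set N := max ((p + q).natDegree + 1) (max (p.natDegree + 1) (q.natDegree + 1)) with hN
    rw [sum_extend Q (p + q) (N := N) (by omega), sum_extend Q p (N := N) (by omega),
      sum_extend Q q (N := N) (by omega), ← Finset.sum_add_distrib]
    refine Finset.sum_congr rfl fun k _ => ?_
    rw [iterate_map_add, mul_add]
  map_smul' a p := by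
    set N := max ((a • p).natDegree + 1) (p.natDegree + 1) with hN
    rw [sum_extend Q (a • p) (N := N) (by omega), sum_extend Q p (N := N) (by omega),
      RingHom.id_apply, Finset.smul_sum]
    refine Finset.sum_congr rfl fun k _ => ?_
    rw [iterate_derivative_smul, mul_smul_comm]

lemma hasExpansion_opOf (Q : ℕ → ℝ[X]) : HasExpansion (opOf Q) Q := fun _ => rfl

lemma opOf_apply_of_le (Q : ℕ → ℝ[X]) (p : ℝ[X]) {N : ℕ} (h : p.natDegree + 1 ≤ N) :
    opOf Q p = ∑ k ∈ Finset.range N, Q k * derivative^[k] p :=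
  sum_extend Q p h

/-- Uniqueness of the expansion. -/
lemma hasExpansion_unique {T : ℝ[X] →ₗ[ℝ] ℝ[X]} {Q Q' : ℕ → ℝ[X]} (h : HasExpansion T Q)
    (h' : HasExpansion T Q') : Q' = Q := by
  funext n
  induction n using Nat.strong_induction_on with
  | _ n ih =>
    have e := (h (X ^ n)).symm.trans (h' (X ^ n))
    rw [natDegree_X_pow, Finset.sum_range_succ, Finset.sum_range_succ] at e
    have e2 : ∑ k ∈ Finset.range n, Q k * derivative^[k] (X ^ n : ℝ[X]) =
        ∑ k ∈ Finset.range n, Q' k * derivative^[k] (X ^ n : ℝ[X]) := by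
      refine Finset.sum_congr rfl fun k hk => ?_
      rw [ih k (Finset.mem_range.mp hk)]
    rw [e2] at e
    have e3 := add_left_cancel e
    rw [iterate_derivative_X_pow_eq_C_mul] at e3
    have hne : (C ((n.descFactorial n : ℕ) : ℝ) * X ^ (n - n) : ℝ[X]) ≠ 0 := by
      rw [Nat.sub_self, pow_zero, mul_one]
      simp [Nat.descFactorial_self, Nat.factorial_ne_zero]
    exact (mul_right_cancel₀ hne e3).symm

/-! ### The coefficients of the cosine of `D` -/

/-- The Taylor coefficients of the cosine. -/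
noncomputable def c (k : ℕ) : ℝ := (if Even k then (-1) ^ (k / 2) else 0) / (k.factorial : ℝ)

lemma c_even (j : ℕ) : c (2 * j) = (-1) ^ j / ((2 * j).factorial : ℝ) := by
  simp [c]

lemma c_odd (j : ℕ) : c (2 * j + 1) = 0 := by
  simp [c]

lemma c_even_ne (j : ℕ) : c (2 * j) ≠ 0 := by
  rw [c_even]
  have : ((2 * j).factorial : ℝ) ≠ 0 := by exact_mod_cast Nat.factorial_ne_zero _
  positivity

/-- `cos D`. -/
noncomputable def cosD : ℝ[X] →ₗ[ℝ] ℝ[X] := opOf fun k => C (c k)

/-- The coefficients of `(x - D) cos D`. -/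
noncomputable def Q : ℕ → ℝ[X]
  | 0 => X
  | k + 1 => C (c (k + 1)) * X - C (c k)

/-- The operator `(x - D) cos D`. -/
noncomputable def T : ℝ[X] →ₗ[ℝ] ℝ[X] := opOf Q

lemma Q_even (j : ℕ) : Q (2 * j) = C (c (2 * j)) * X := by
  cases j with
  | zero => simp [Q, c]
  | succ j =>
    have : 2 * (j + 1) = (2 * j + 1) + 1 := by ring
    rw [this, Q, c_odd]
    simp

lemma Q_odd (j : ℕ) : Q (2 * j + 1) = - C (c (2 * j)) := by
  rw [Q, c_odd]
  simp

lemma T_apply (p : ℝ[X]) : T p = X * cosD p - derivative (cosD p) := by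
  have h1 : T p = ∑ k ∈ Finset.range (p.natDegree + 1 + 1), Q k * derivative^[k] p :=
    opOf_apply_of_le Q p (by omega)
  have h2 : cosD p = ∑ k ∈ Finset.range (p.natDegree + 1 + 1), C (c k) * derivative^[k] p :=
    opOf_apply_of_le _ p (by omega)
  have h3 : cosD p = ∑ k ∈ Finset.range (p.natDegree + 1), C (c k) * derivative^[k] p := rfl
  have h4 : derivative (cosD p) =
      ∑ k ∈ Finset.range (p.natDegree + 1), C (c k) * derivative^[k + 1] p := by
    rw [h3, derivative_sum]
    refine Finset.sum_congr rfl fun k _ => ?_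
    rw [derivative_C_mul, Function.iterate_succ_apply']
  rw [h4, h2, h1, Finset.sum_range_succ' (fun k => Q k * derivative^[k] p),
    Finset.sum_range_succ' (fun k => C (c k) * derivative^[k] p), mul_add, Finset.mul_sum,
    add_sub_right_comm, ← Finset.sum_sub_distrib]
  congr 1
  · refine Finset.sum_congr rfl fun k _ => ?_
    rw [Q]
    ring
  · simp [Q, c]

/-! ### Evaluation of `cos D` -/

lemma half_sum_pow_I (k : ℕ) :
    (Complex.I ^ k + (-Complex.I) ^ k) / 2 =
      (((if Even k then (-1) ^ (k / 2) else 0 : ℝ)) : ℂ) := by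
  rcases Nat.even_or_odd' k with ⟨j, rfl | rfl⟩
  · simp only [even_two, Even.mul_right, ↓reduceIte, Complex.ofReal_pow, Complex.ofReal_neg,
      Complex.ofReal_one]
    rw [Nat.mul_div_cancel_left _ (by norm_num : 0 < 2), pow_mul, pow_mul, neg_sq, Complex.I_sq]
    ring
  · have ho : Odd (2 * j + 1) := ⟨j, rfl⟩
    rw [if_neg (Nat.not_even_iff_odd.mpr ho), ho.neg_pow]
    simp

lemma aeval_cosD (p : ℝ[X]) (z : ℂ) :
    aeval z (cosD p) = (aeval (z + Complex.I) p + aeval (z - Complex.I) p) / 2 := by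
  set P : ℂ[X] := p.map (algebraMap ℝ ℂ) with hP
  have hdeg : P.natDegree = p.natDegree := natDegree_map _
  have key : ∀ h : ℂ, aeval (z + h) p =
      ∑ k ∈ Finset.range (p.natDegree + 1), (hasseDeriv k P).eval z * h ^ k := by
    intro h
    have e1 : aeval (z + h) p = P.eval (h + z) := by
      rw [hP, eval_map_algebraMap, add_comm]
    rw [e1, ← taylor_eval, eval_eq_sum_range' (n := p.natDegree + 1) (by
      rw [natDegree_taylor, hdeg]; omega)]
    refine Finset.sum_congr rfl fun k _ => ?_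
    rw [taylor_coeff]
  rw [key, sub_eq_add_neg, key, ← Finset.sum_add_distrib, Finset.sum_div]
  have h3 : cosD p = ∑ k ∈ Finset.range (p.natDegree + 1), C (c k) * derivative^[k] p := rfl
  rw [h3, map_sum]
  refine Finset.sum_congr rfl fun k _ => ?_
  have e2 : aeval z (derivative^[k] p) = (k.factorial : ℂ) * (hasseDeriv k P).eval z := by
    have e3 : derivative^[k] P = k.factorial • hasseDeriv k P := by
      rw [← factorial_smul_hasseDeriv]; rfl
    have e4 : aeval z (derivative^[k] p) = (derivative^[k] P).eval z := by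
      rw [hP, iterate_derivative_map, eval_map_algebraMap]
    rw [e4, e3, eval_smul, nsmul_eq_mul]
  have hk : (k.factorial : ℂ) ≠ 0 := by exact_mod_cast Nat.factorial_ne_zero k
  rw [map_mul, aeval_C, e2, ← mul_add, mul_div_assoc, half_sum_pow_I]
  simp only [c, Complex.coe_algebraMap, Complex.ofReal_div, Complex.ofReal_natCast]
  field_simp

/-! ### Zeros in the upper half plane -/

lemma aeval_conj (p : ℝ[X]) (z : ℂ) :
    aeval (starRingEnd ℂ z) p = starRingEnd ℂ (aeval z p) := by
  exact Polynomial.aeval_conj p z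

lemma hyperbolic_of_upper (p : ℝ[X]) (h : ∀ z : ℂ, 0 < z.im → aeval z p ≠ 0) :
    Hyperbolic p := by
  right
  intro z hz
  by_contra hne
  rcases lt_or_gt_of_ne hne with hlt | hgt
  · refine h (starRingEnd ℂ z) (by simpa using hlt) ?_
    rw [aeval_conj, hz, map_zero]
  · exact h z hgt hz

/-- The complex roots of a nonzero hyperbolic polynomial are real. -/
lemma roots_im {p : ℝ[X]} (hp : Hyperbolic p) (hp0 : p ≠ 0) :
    ∀ r ∈ (p.map (algebraMap ℝ ℂ)).roots, r.im = 0 := by
  intro r hr
  rcases hp with h | h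
  · exact absurd h hp0
  · apply h
    have := (mem_roots'.mp hr).2
    rwa [IsRoot.def, eval_map_algebraMap] at this

lemma aeval_eq_prod (p : ℝ[X]) (z : ℂ) :
    aeval z p = (p.map (algebraMap ℝ ℂ)).leadingCoeff *
      ((p.map (algebraMap ℝ ℂ)).roots.map fun r => z - r).prod := by
  rw [← eval_map_algebraMap, (IsAlgClosed.splits (p.map (algebraMap ℝ ℂ))).eval_eq_prod_roots]

lemma norm_lt {z r : ℂ} (hz : 0 < z.im) (hr : r.im = 0) :
    ‖z - Complex.I - r‖ < ‖z + Complex.I - r‖ := by
  rw [Complex.norm_def, Complex.norm_def]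
  apply Real.sqrt_lt_sqrt (Complex.normSq_nonneg _)
  simp only [Complex.normSq_apply, Complex.sub_re, Complex.sub_im, Complex.add_re, Complex.add_im,
    Complex.I_re, Complex.I_im, hr]
  nlinarith

lemma prod_norm_aux {z : ℂ} (hz : 0 < z.im) (s : Multiset ℂ) (hs : ∀ r ∈ s, r.im = 0) :
    0 < ‖(s.map fun r => z + Complex.I - r).prod‖ ∧
    ‖(s.map fun r => z - Complex.I - r).prod‖ ≤ ‖(s.map fun r => z + Complex.I - r).prod‖ ∧
    (s ≠ 0 → ‖(s.map fun r => z - Complex.I - r).prod‖ <
      ‖(s.map fun r => z + Complex.I - r).prod‖) := by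
  induction s using Multiset.induction_on with
  | empty => simp
  | cons r s ih =>
    have hr : r.im = 0 := hs r (Multiset.mem_cons_self r s)
    obtain ⟨h1, h2, _⟩ := ih fun t ht => hs t (Multiset.mem_cons_of_mem ht)
    have hlt := norm_lt hz hr
    have hpos : 0 < ‖z + Complex.I - r‖ := lt_of_le_of_lt (norm_nonneg _) hlt
    simp only [Multiset.map_cons, Multiset.prod_cons, norm_mul]
    have hstrict : ‖z - Complex.I - r‖ * ‖(s.map fun r => z - Complex.I - r).prod‖ <
        ‖z + Complex.I - r‖ * ‖(s.map fun r => z + Complex.I - r).prod‖ := by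
      calc ‖z - Complex.I - r‖ * ‖(s.map fun r => z - Complex.I - r).prod‖
          ≤ ‖z - Complex.I - r‖ * ‖(s.map fun r => z + Complex.I - r).prod‖ :=
            mul_le_mul_of_nonneg_left h2 (norm_nonneg _)
        _ < ‖z + Complex.I - r‖ * ‖(s.map fun r => z + Complex.I - r).prod‖ :=
            mul_lt_mul_of_pos_right hlt h1
    exact ⟨mul_pos hpos h1, hstrict.le, fun _ => hstrict⟩

lemma cosD_upper {p : ℝ[X]} (hp : Hyperbolic p) (hp0 : p ≠ 0) {z : ℂ} (hz : 0 < z.im) :
    aeval z (cosD p) ≠ 0 := by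
  have hP0 : p.map (algebraMap ℝ ℂ) ≠ 0 := by
    rwa [Ne, Polynomial.map_eq_zero]
  have hlc : (p.map (algebraMap ℝ ℂ)).leadingCoeff ≠ 0 := leadingCoeff_ne_zero.mpr hP0
  obtain ⟨h1, _, h3⟩ := prod_norm_aux hz _ (roots_im hp hp0)
  rw [aeval_cosD, aeval_eq_prod, aeval_eq_prod, ← mul_add, mul_div_assoc]
  refine mul_ne_zero hlc (div_ne_zero ?_ two_ne_zero)
  intro hsum
  by_cases hs : (p.map (algebraMap ℝ ℂ)).roots = 0
  · rw [hs] at hsum
    simp only [Multiset.map_zero, Multiset.prod_zero] at hsum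
    norm_num at hsum
  · have hlt := h3 hs
    rw [eq_neg_of_add_eq_zero_left hsum, norm_neg] at hlt
    exact lt_irrefl _ hlt

lemma hyperbolic_cosD {p : ℝ[X]} (hp : Hyperbolic p) : Hyperbolic (cosD p) := by
  by_cases hp0 : p = 0
  · left; rw [hp0, map_zero]
  · exact hyperbolic_of_upper _ fun z hz => cosD_upper hp hp0 hz

lemma sum_im_nonpos {z : ℂ} (hz : 0 < z.im) (s : Multiset ℂ) (hs : ∀ r ∈ s, r.im = 0) :
    ((s.map fun r => 1 / (z - r)).sum).im ≤ 0 := by
  induction s using Multiset.induction_on with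
  | empty => simp
  | cons r s ih =>
    have hr : r.im = 0 := hs r (Multiset.mem_cons_self r s)
    have h2 := ih fun t ht => hs t (Multiset.mem_cons_of_mem ht)
    simp only [Multiset.map_cons, Multiset.sum_cons, Complex.add_im]
    have : (1 / (z - r)).im ≤ 0 := by
      rw [one_div, Complex.inv_im, Complex.sub_im, hr, sub_zero]
      apply div_nonpos_of_nonpos_of_nonneg (by linarith) (Complex.normSq_nonneg _)
    linarith

lemma hyperbolic_X_sub_D {g : ℝ[X]} (hg : Hyperbolic g) :
    Hyperbolic (X * g - derivative g) := by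
  by_cases hg0 : g = 0
  · left; simp [hg0]
  refine hyperbolic_of_upper _ fun z hz h0 => ?_
  have hgz : aeval z g ≠ 0 := by
    rcases hg with h | h
    · exact absurd h hg0
    · intro h1; have := h z h1; linarith
  have hgz' : (g.map (algebraMap ℝ ℂ)).eval z ≠ 0 := by rwa [eval_map_algebraMap]
  have h2 := (IsAlgClosed.splits (g.map (algebraMap ℝ ℂ))).eval_derivative_div_eval_of_ne_zero hgz'
  rw [derivative_map, eval_map_algebraMap, eval_map_algebraMap] at h2
  have h3 : z = aeval z (derivative g) / aeval z g := by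
    rw [map_sub, map_mul, aeval_X, sub_eq_zero] at h0
    rw [eq_div_iff hgz, h0]
  have h4 := sum_im_nonpos hz _ (roots_im hg hg0)
  rw [← h2, ← h3] at h4
  linarith

lemma hyperbolic_T {p : ℝ[X]} (hp : Hyperbolic p) : Hyperbolic (T p) := by
  rw [T_apply]
  exact hyperbolic_X_sub_D (hyperbolic_cosD hp)

/-! ### The range is infinite dimensional -/

lemma coeff_cosD (p : ℝ[X]) {n : ℕ} (hn : p.natDegree ≤ n) :
    (cosD p).coeff n = p.coeff n := by
  have h3 : cosD p = ∑ k ∈ Finset.range (p.natDegree + 1), C (c k) * derivative^[k] p := rfl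
  rw [h3, Finset.sum_range_succ', coeff_add, finsetSum_coeff, Finset.sum_eq_zero]
  · simp [c]
  · intro k _
    rw [coeff_C_mul, coeff_eq_zero_of_natDegree_lt, mul_zero]
    by_cases h0 : p.natDegree = 0
    · exfalso
      simp_all
    · exact lt_of_lt_of_le (lt_of_le_of_lt (natDegree_iterate_derivative p (k + 1)) (by omega)) hn

lemma T_injective : Function.Injective T := by
  rw [injective_iff_map_eq_zero]
  intro p hp
  by_contra hne
  have h1 : (T p).coeff (p.natDegree + 1) = p.leadingCoeff := by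
    rw [T_apply, coeff_sub, coeff_X_mul, coeff_derivative, coeff_cosD p le_rfl,
      coeff_cosD p (n := p.natDegree + 1 + 1) (by omega),
      coeff_eq_zero_of_natDegree_lt (n := p.natDegree + 1 + 1) (by omega)]
    simp
  rw [hp, coeff_zero] at h1
  exact hne (leadingCoeff_eq_zero.mp h1.symm)

lemma range_infinite : ¬ FiniteDimensional ℝ (LinearMap.range T) := by
  intro h
  have e : ℝ[X] ≃ₗ[ℝ] LinearMap.range T := LinearEquiv.ofInjective T T_injective
  have : FiniteDimensional ℝ ℝ[X] := Module.Finite.equiv e.symm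
  exact Polynomial.not_finite this

/-- **Answer: the statement is false.** There is a linear operator `T = ∑ Q_k D^k` on real
polynomials all of whose coefficients `Q_k` are nonzero (so it has infinite order), which preserves
hyperbolicity and has infinite-dimensional range, and whose coefficients have degrees
`1, 0, 1, 0, ...`, so that `deg Q_{2j+1} < deg Q_{2j}` for every `j`. -/
theorem result :
    ∃ (T : ℝ[X] →ₗ[ℝ] ℝ[X]) (Q : ℕ → ℝ[X]),
      HasExpansion T Q ∧
      (∀ Q' : ℕ → ℝ[X], HasExpansion T Q' → Q' = Q) ∧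
      (∀ p : ℝ[X], Hyperbolic p → Hyperbolic (T p)) ∧
      ¬ FiniteDimensional ℝ (LinearMap.range T) ∧
      (∀ k, Q k ≠ 0) ∧
      ∀ j, (Q (2 * j)).degree = 1 ∧ (Q (2 * j + 1)).degree = 0 := by
  have hdeg : ∀ j, (Q (2 * j)).degree = 1 ∧ (Q (2 * j + 1)).degree = 0 := by
    intro j
    constructor
    · rw [Q_even, degree_C_mul (c_even_ne j), degree_X]
    · rw [Q_odd, degree_neg, degree_C (c_even_ne j)]
  refine ⟨T, Q, hasExpansion_opOf Q, fun Q' h => hasExpansion_unique (hasExpansion_opOf Q) h,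
    fun p hp => hyperbolic_T hp, range_infinite, fun k => ?_, hdeg⟩
  intro hk
  rcases Nat.even_or_odd' k with ⟨j, rfl | rfl⟩
  · have := (hdeg j).1
    rw [hk, degree_zero] at this
    exact absurd this (by decide)
  · have := (hdeg j).2
    rw [hk, degree_zero] at this
    exact absurd this (by decide)

end Pool.Agent.Results.MP_6bb0fd_an.NonMonotone
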